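import Mathlib

set_option autoImplicit false

namespace Pool.Agent.Results.MP_ecbd44_co.HankelDeterminants

open Polynomial

/-- The polynomials `H_d(n, x)`: `x^n` for `n ≤ d - 1`, and
`H_d(n) = x H_d(n-1) + (n-1)(n-2)⋯(n-d+1) H_d(n-d)` for `n ≥ d` (the case `d < 2` is irrelevant). -/
noncomputable def H (d : ℕ) (n : ℕ) : Polynomial ℤ :=
  if h : n < d ∨ d < 2 then X ^ n
  else X * H d (n - 1) + C ((Nat.descFactorial (n - 1) (d - 1) : ℕ) : ℤ) * H d (n - d)
termination_by n
decreasing_by all_goals omega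

/-- The Hankel matrix `[H_d(i+j, x)]` -/
noncomputable def M (d n : ℕ) : Matrix (Fin n) (Fin n) (Polynomial ℤ) :=
  Matrix.of fun i j => H d (i.val + j.val)

theorem H_zero (d : ℕ) (hd : 2 ≤ d) : H d 0 = 1 := by
  rw [H, dif_pos (by omega)]; simp

/-- uniform recurrence, with `e = d - 1` -/
theorem H_succ (e : ℕ) (he : 1 ≤ e) (n : ℕ) :
    H (e + 1) (n + 1) = X * H (e + 1) n + C ((Nat.descFactorial n e : ℕ) : ℤ) * H (e + 1) (n - e) := by
  by_cases h : n < e
  · rw [Nat.descFactorial_of_lt h]
    rw [H, dif_pos (by omega)]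
    rw [H, dif_pos (by omega)]
    simp [pow_succ, mul_comm]
  · rw [H, dif_neg (by omega)]
    simp

/-- the basis sequences -/
noncomputable def B (e r i : ℕ) : Polynomial ℤ := C ((Nat.choose i r : ℕ) : ℤ) * H (e + 1) (i - r)

theorem B_eq_zero {e r i : ℕ} (h : i < r) : B e r i = 0 := by
  unfold B; rw [Nat.choose_eq_zero_of_lt h]; simp

theorem B_self (e r : ℕ) (he : 1 ≤ e) : B e r r = 1 := by
  unfold B
  rw [Nat.sub_self, H_zero _ (by omega)]; simp

theorem choose_mul_desc (i r e : ℕ) :
    Nat.choose i r * Nat.descFactorial (i - r) e * Nat.factorial r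
      = Nat.factorial (r + e) * Nat.choose i (r + e) := by
  by_cases h : r + e ≤ i
  · have h1 : Nat.factorial (i - r - e) ≠ 0 := Nat.factorial_ne_zero _
    apply Nat.eq_of_mul_eq_mul_right (Nat.pos_of_ne_zero h1)
    have h2 := Nat.choose_mul_factorial_mul_factorial (show r ≤ i by omega)
    have h3 := Nat.factorial_mul_descFactorial (show e ≤ i - r by omega)
    have h4 := Nat.choose_mul_factorial_mul_factorial h
    have h5 : i - (r + e) = i - r - e := by omega
    rw [h5] at h4
    calc _ = Nat.choose i r * Nat.factorial r * (Nat.factorial (i - r - e) * Nat.descFactorial (i - r) e) := by ring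
      _ = Nat.factorial i := by rw [h3, h2]
      _ = _ := by rw [← h4]; ring
  · rw [Nat.choose_eq_zero_of_lt (by omega : i < r + e)]
    by_cases h2 : r ≤ i
    · rw [Nat.descFactorial_of_lt (by omega)]; simp
    · rw [Nat.choose_eq_zero_of_lt (by omega : i < r)]; simp

/-- the shift acts on the basis sequences by a three-term rule -/
theorem B_shift_zero (e i : ℕ) (he : 1 ≤ e) :
    C ((Nat.factorial 0 : ℕ) : ℤ) * B e 0 (i + 1) = C ((Nat.factorial 0 : ℕ) : ℤ) * (X * B e 0 i)
      + C ((Nat.factorial (0 + e) : ℕ) : ℤ) * B e (0 + e) i := by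
  have h := choose_mul_desc i 0 e
  unfold B
  simp only [Nat.choose_zero_right, Nat.sub_zero, Nat.factorial_zero, Nat.cast_one, map_one, one_mul,
    mul_one, zero_add] at h ⊢
  rw [H_succ e he, ← mul_assoc, ← map_mul, ← Nat.cast_mul, ← h]

theorem B_shift_succ (e r i : ℕ) (he : 1 ≤ e) :
    C ((Nat.factorial (r + 1) : ℕ) : ℤ) * B e (r + 1) (i + 1) =
      C ((Nat.factorial (r + 1) : ℕ) : ℤ) * B e r i
      + C ((Nat.factorial (r + 1) : ℕ) : ℤ) * (X * B e (r + 1) i)
      + C ((Nat.factorial (r + 1 + e) : ℕ) : ℤ) * B e (r + 1 + e) i := by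
  have h := choose_mul_desc i (r + 1) e
  unfold B
  have e1 : i + 1 - (r + 1) = i - r := by omega
  rw [e1, Nat.choose_succ_succ]
  rcases Nat.lt_or_ge r i with hr | hr
  · obtain ⟨m, hm⟩ : ∃ m, i - r = m + 1 := ⟨i - r - 1, by omega⟩
    have hm2 : i - (r + 1) = m := by omega
    have hm3 : i - (r + 1 + e) = m - e := by omega
    rw [hm2] at h
    rw [hm, hm2, hm3]
    have h2 : (C ((Nat.factorial (r + 1 + e) : ℕ) : ℤ) : Polynomial ℤ) * (C ((Nat.choose i (r + 1 + e) : ℕ) : ℤ) * H (e + 1) (m - e))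
        = C ((Nat.choose i (r + 1) : ℕ) : ℤ) * C ((Nat.descFactorial m e : ℕ) : ℤ) * C ((Nat.factorial (r + 1) : ℕ) : ℤ)
          * H (e + 1) (m - e) := by
      rw [← mul_assoc, ← map_mul, ← map_mul, ← map_mul, ← Nat.cast_mul, ← Nat.cast_mul, ← Nat.cast_mul, h]
    rw [h2, H_succ e he m]
    push_cast
    rw [map_add]
    ring
  · have h0 : Nat.choose i (r + 1) = 0 := Nat.choose_eq_zero_of_lt (by omega)
    have h00 : Nat.choose i (r + 1 + e) = 0 := Nat.choose_eq_zero_of_lt (by omega)
    rw [h0, h00]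
    simp

/-- the integer array -/
def g0 (e : ℕ) : ℕ → ℕ → ℤ
  | 0, r => if r = 0 then 1 else 0
  | j + 1, r => (r + 1) * g0 e j (r + 1) + (if e ≤ r then g0 e j (r - e) else 0)

/-- the polynomial array -/
noncomputable def gx (e j r : ℕ) : Polynomial ℤ :=
  ∑ k ∈ Finset.range (j + 1), C ((Nat.choose j k : ℕ) : ℤ) * X ^ (j - k) * C (g0 e k r)

theorem gx_succ (e j r : ℕ) : gx e (j + 1) r =
    C ((r : ℤ) + 1) * gx e j (r + 1) + X * gx e j r + (if e ≤ r then gx e j (r - e) else 0) := by
  have h1 : gx e (j + 1) r = X * gx e j r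
      + ∑ k ∈ Finset.range (j + 1), C ((Nat.choose j k : ℕ) : ℤ) * X ^ (j - k) * C (g0 e (k + 1) r) := by
    unfold gx
    rw [Finset.sum_range_succ']
    simp_rw [Nat.choose_succ_succ]
    have : ∀ k ∈ Finset.range (j + 1), (C (((Nat.choose j k + Nat.choose j (k + 1) : ℕ)) : ℤ) : Polynomial ℤ)
        * X ^ (j + 1 - (k + 1)) * C (g0 e (k + 1) r)
        = C ((Nat.choose j k : ℕ) : ℤ) * X ^ (j - k) * C (g0 e (k + 1) r)
          + C ((Nat.choose j (k + 1) : ℕ) : ℤ) * X ^ (j - k) * C (g0 e (k + 1) r) := by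
      intro k _
      have : j + 1 - (k + 1) = j - k := by omega
      rw [this]
      push_cast
      rw [map_add]
      ring
    rw [Finset.sum_congr rfl this, Finset.sum_add_distrib]
    have h2 : X * ∑ k ∈ Finset.range (j + 1), (C ((Nat.choose j k : ℕ) : ℤ) : Polynomial ℤ) * X ^ (j - k) * C (g0 e k r)
        = ∑ k ∈ Finset.range (j + 1), C ((Nat.choose j (k + 1) : ℕ) : ℤ) * X ^ (j - k) * C (g0 e (k + 1) r)
          + C ((Nat.choose (j + 1) 0 : ℕ) : ℤ) * X ^ (j + 1 - 0) * C (g0 e 0 r) := by
      rw [Finset.mul_sum, Finset.sum_range_succ', Finset.sum_range_succ (fun k => C ((Nat.choose j (k + 1) : ℕ) : ℤ) * X ^ (j - k) * C (g0 e (k + 1) r))]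
      rw [Nat.choose_eq_zero_of_lt (by omega : j < j + 1)]
      congr 1
      · simp only [Nat.cast_zero, map_zero, zero_mul, add_zero]
        apply Finset.sum_congr rfl
        intro k hk
        rw [Finset.mem_range] at hk
        have : j - k = (j - (k + 1)) + 1 := by omega
        rw [this, pow_succ]
        ring
      · simp only [Nat.choose_zero_right, Nat.sub_zero]
        rw [pow_succ]
        ring
    rw [h2]
    ring
  have h3 : ∀ k, g0 e (k + 1) r = (r + 1) * g0 e k (r + 1) + (if e ≤ r then g0 e k (r - e) else 0) := fun k => rfl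
  have h4 : ∑ k ∈ Finset.range (j + 1), (C ((Nat.choose j k : ℕ) : ℤ) : Polynomial ℤ) * X ^ (j - k) * C (g0 e (k + 1) r)
      = C ((r : ℤ) + 1) * gx e j (r + 1) + (if e ≤ r then gx e j (r - e) else 0) := by
    by_cases h : e ≤ r
    · simp only [h3, h, if_true]
      unfold gx
      rw [Finset.mul_sum, ← Finset.sum_add_distrib]
      apply Finset.sum_congr rfl
      intro k _
      rw [map_add, map_mul]
      ring
    · simp only [h3, h, if_false, add_zero]
      unfold gx
      rw [Finset.mul_sum]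
      apply Finset.sum_congr rfl
      intro k _
      rw [map_mul]
      ring
  rw [h1, h4]
  ring

theorem gx_zero (e r : ℕ) : gx e 0 r = if r = 0 then 1 else 0 := by
  unfold gx
  simp only [zero_add, Finset.sum_range_one, Nat.choose_self, Nat.sub_self, pow_zero, g0]
  split_ifs <;> simp

/-- the expansion of the Hankel entries -/
theorem expand (e : ℕ) (he : 1 ≤ e) : ∀ j i N, i < N →
    H (e + 1) (i + j) = ∑ r ∈ Finset.range N, C ((Nat.factorial r : ℕ) : ℤ) * B e r i * gx e j r := by
  intro j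
  induction j with
  | zero =>
    intro i N hN
    obtain ⟨N, rfl⟩ : ∃ m, N = m + 1 := ⟨N - 1, by omega⟩
    rw [Finset.sum_range_succ', Finset.sum_eq_zero]
    · simp [gx_zero, B]
    · intro r _
      rw [gx_zero, if_neg (by omega), mul_zero]
  | succ j ih =>
    intro i N hN
    have h := ih (i + 1) (N + 1) (by omega)
    have e1 : i + (j + 1) = i + 1 + j := by omega
    rw [e1, h]
    rw [Finset.sum_range_succ']
    simp_rw [B_shift_succ e _ i he]
    rw [B_shift_zero e i he]
    simp_rw [gx_succ, mul_add]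
    -- rearrange
    have t1 : ∑ r ∈ Finset.range N, C ((Nat.factorial r : ℕ) : ℤ) * B e r i * (C ((r : ℤ) + 1) * gx e j (r + 1))
        = ∑ r ∈ Finset.range N, C ((Nat.factorial (r + 1) : ℕ) : ℤ) * B e r i * gx e j (r + 1) := by
      apply Finset.sum_congr rfl
      intro r _
      rw [Nat.factorial_succ]
      push_cast
      rw [map_mul]
      ring
    have t2 : ∑ r ∈ Finset.range N, C ((Nat.factorial r : ℕ) : ℤ) * B e r i * (X * gx e j r)
        = ∑ r ∈ Finset.range N, C ((Nat.factorial (r + 1) : ℕ) : ℤ) * (X * B e (r + 1) i) * gx e j (r + 1)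
          + C ((Nat.factorial 0 : ℕ) : ℤ) * (X * B e 0 i) * gx e j 0 := by
      have : ∑ r ∈ Finset.range N, C ((Nat.factorial r : ℕ) : ℤ) * B e r i * (X * gx e j r)
        = ∑ r ∈ Finset.range (N + 1), C ((Nat.factorial r : ℕ) : ℤ) * (X * B e r i) * gx e j r := by
        rw [Finset.sum_range_succ, B_eq_zero hN]
        simp only [mul_zero, zero_mul, add_zero]
        apply Finset.sum_congr rfl
        intro r _
        ring
      rw [this, Finset.sum_range_succ']
    have t3 : ∑ r ∈ Finset.range N, C ((Nat.factorial r : ℕ) : ℤ) * B e r i * (if e ≤ r then gx e j (r - e) else 0)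
        = ∑ r ∈ Finset.range N, C ((Nat.factorial (r + 1 + e) : ℕ) : ℤ) * B e (r + 1 + e) i * gx e j (r + 1)
          + C ((Nat.factorial (0 + e) : ℕ) : ℤ) * B e (0 + e) i * gx e j 0 := by
      rw [← Finset.sum_range_succ' (fun r => C ((Nat.factorial (r + e) : ℕ) : ℤ) * B e (r + e) i * gx e j r)]
      have a1 : ∑ r ∈ Finset.range N, C ((Nat.factorial r : ℕ) : ℤ) * B e r i * (if e ≤ r then gx e j (r - e) else 0)
          = ∑ r ∈ Finset.range (e + (N + 1)), C ((Nat.factorial r : ℕ) : ℤ) * B e r i * (if e ≤ r then gx e j (r - e) else 0) := by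
        apply Finset.sum_subset
        · intro r hr
          rw [Finset.mem_range] at hr ⊢
          omega
        · intro r _ hr
          rw [Finset.mem_range] at hr
          rw [B_eq_zero (by omega)]
          simp
      rw [a1, Finset.sum_range_add]
      have a2 : ∑ r ∈ Finset.range e, C ((Nat.factorial r : ℕ) : ℤ) * B e r i * (if e ≤ r then gx e j (r - e) else 0) = 0 := by
        apply Finset.sum_eq_zero
        intro r hr
        rw [Finset.mem_range] at hr
        rw [if_neg (by omega), mul_zero]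
      rw [a2, zero_add]
      apply Finset.sum_congr rfl
      intro r _
      rw [if_pos (by omega), Nat.add_sub_cancel_left, add_comm e r]
    simp_rw [add_mul, Finset.sum_add_distrib]
    rw [t1, t2, t3]
    ring

/-- lower unitriangular factor -/
noncomputable def Bm (e n : ℕ) : Matrix (Fin n) (Fin n) (Polynomial ℤ) := Matrix.of fun i r => B e r.val i.val

/-- upper unitriangular factor -/
noncomputable def Pm (n : ℕ) : Matrix (Fin n) (Fin n) (Polynomial ℤ) :=
  Matrix.of fun k j => C ((Nat.choose j.val k.val : ℕ) : ℤ) * X ^ (j.val - k.val)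

/-- the integer matrix -/
def Gm (e n : ℕ) : Matrix (Fin n) (Fin n) ℤ := Matrix.of fun r k => g0 e k.val r.val

theorem det_Bm (e n : ℕ) (he : 1 ≤ e) : (Bm e n).det = 1 := by
  rw [Matrix.det_of_lowerTriangular]
  · apply Finset.prod_eq_one
    intro i _
    exact B_self e i.val he
  · intro i j hij
    have hij' : i.val < j.val := by simpa using hij
    exact B_eq_zero hij'

theorem det_Pm (n : ℕ) : (Pm n).det = 1 := by
  rw [Matrix.det_of_upperTriangular]
  · apply Finset.prod_eq_one
    intro i _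
    simp [Pm]
  · intro i j hij
    have hij' : j.val < i.val := by simpa using hij
    simp [Pm, Nat.choose_eq_zero_of_lt hij']

theorem factor (e n : ℕ) (he : 1 ≤ e) :
    M (e + 1) n = Bm e n * (Matrix.diagonal fun r : Fin n => (C ((Nat.factorial r.val : ℕ) : ℤ) : Polynomial ℤ))
      * (Gm e n).map C * Pm n := by
  ext1 i j
  rw [Matrix.mul_assoc, Matrix.mul_apply]
  simp_rw [Matrix.mul_diagonal, Matrix.mul_apply]
  have h := expand e he j.val i.val n i.isLt
  change H (e + 1) (i.val + j.val) = _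
  rw [h, Finset.sum_range]
  apply Finset.sum_congr rfl
  intro r _
  have : gx e j.val r.val = ∑ k : Fin n, ((Gm e n).map C) r k * Pm n k j := by
    unfold gx
    have h2 : ∑ k ∈ Finset.range (j.val + 1), (C ((Nat.choose j.val k : ℕ) : ℤ) : Polynomial ℤ) * X ^ (j.val - k) * C (g0 e k r.val)
        = ∑ k ∈ Finset.range n, (C ((Nat.choose j.val k : ℕ) : ℤ) : Polynomial ℤ) * X ^ (j.val - k) * C (g0 e k r.val) := by
      apply Finset.sum_subset
      · intro k hk
        rw [Finset.mem_range] at hk ⊢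
        have := j.isLt
        omega
      · intro k _ hk
        rw [Finset.mem_range] at hk
        rw [Nat.choose_eq_zero_of_lt (by omega)]
        simp
    rw [h2, Finset.sum_range]
    apply Finset.sum_congr rfl
    intro k _
    simp only [Gm, Pm, Matrix.map_apply, Matrix.of_apply]
    ring
  rw [this]
  simp only [Bm, Matrix.of_apply]
  ring

/-- For every `d ≥ 2` and every `n ≥ 1` the Hankel determinant of `H_d(n, x)` is a constant integer divisible by
`∏_{i<n} i!`. -/
theorem result (d : ℕ) (hd : 2 ≤ d) (n : ℕ) (_hn : 1 ≤ n) :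
    ∃ z : ℤ, (M d n).det = C z ∧ ((∏ i ∈ Finset.range n, Nat.factorial i : ℕ) : ℤ) ∣ z := by
  obtain ⟨e, rfl⟩ : ∃ e, d = e + 1 := ⟨d - 1, by omega⟩
  refine ⟨((∏ i ∈ Finset.range n, Nat.factorial i : ℕ) : ℤ) * (Gm e n).det, ?_, Dvd.intro _ rfl⟩
  rw [factor e n (by omega), Matrix.det_mul, Matrix.det_mul, Matrix.det_mul, det_Bm e n (by omega), det_Pm,
    Matrix.det_diagonal, mul_one, one_mul, map_mul]
  congr 1
  · rw [← Finset.prod_range (fun i => (C ((Nat.factorial i : ℕ) : ℤ) : Polynomial ℤ)), Nat.cast_prod, map_prod]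
  · rw [← RingHom.mapMatrix_apply, ← RingHom.map_det]

end Pool.Agent.Results.MP_ecbd44_co.HankelDeterminants
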